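import Pool.Agent.LPW.StmtsC

set_option autoImplicit false

/-!
# Squad LPW, row MNO: monomials which are independent modulo `G`
-/

namespace Pool.Agent.LPW.H19

open Pool.Agent.LPW

/-- the exponents `i` of the monomials `X₀ ^ i X₁ ^ (c - i)` which are not divisible by
`X₀ ^ p X₁ ^ q` -/
def row (p q c : ℕ) : Finset ℕ := (Finset.range (c + 1)).filter fun i => ¬ (p ≤ i ∧ q ≤ c - i)

theorem card_row (p q c : ℕ) : (row p q c).card = min (c + 1) (p + q) := by
  have h1 : ((Finset.range (c + 1)).filter fun i => p ≤ i ∧ q ≤ c - i) =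
      Finset.Ico p (c + 1 - q) := by
    ext i
    simp only [Finset.mem_filter, Finset.mem_range, Finset.mem_Ico]
    omega
  have h2 := Finset.card_filter_add_card_filter_not (s := Finset.range (c + 1))
    (fun i => p ≤ i ∧ q ≤ c - i)
  rw [h1, Nat.card_Ico, Finset.card_range] at h2
  unfold row
  omega

/-- the set of the exponents -/
def TT (p q D : ℕ) : Finset (Σ _ : ℕ, ℕ) := (Finset.range (D + 1)).sigma fun c => row p q c

theorem mem_TT {p q D : ℕ} {t : Σ _ : ℕ, ℕ} : t ∈ TT p q D ↔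
    t.1 ≤ D ∧ t.2 ≤ t.1 ∧ ¬ (p ≤ t.2 ∧ q ≤ t.1 - t.2) := by
  unfold TT row
  rw [Finset.mem_sigma, Finset.mem_range, Finset.mem_filter, Finset.mem_range]
  omega

theorem card_TT (p q D e : ℕ) (he : p + q = e) : (TT p q D).card = Le e D := by
  unfold TT Le
  rw [Finset.card_sigma]
  exact Finset.sum_congr rfl fun c _ => by rw [card_row, he]

theorem sum_TT (p q D e : ℕ) (he : p + q = e) : ∑ t ∈ TT p q D, t.1 = Se e D := by
  unfold TT Se
  rw [Finset.sum_sigma]
  refine Finset.sum_congr rfl fun c _ => ?_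
  rw [Finset.sum_const, card_row, he, smul_eq_mul, mul_comm]

/-- the monomial of an exponent vector -/
theorem mon_eq (x : Fin 2 → ℕ) (c : ℚ) : MvPolynomial.C c *
    (MvPolynomial.X 0 ^ (x 0) * MvPolynomial.X 1 ^ (x 1)) =
    MvPolynomial.monomial (Finsupp.equivFunOnFinite.symm x) c := by
  rw [MvPolynomial.monomial_eq, Finsupp.prod_fintype _ _ (fun i => pow_zero _),
    Fin.prod_univ_two]
  rfl

/-- Row MNO. -/
theorem mno : MnoStmt := by
  intro e D he heD G hG
  classical
  let m : MonomialOrder (Fin 2) := MonomialOrder.degLex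
  have hG0 : G ≠ 0 := by
    rintro rfl
    rw [MvPolynomial.totalDegree_zero] at hG
    omega
  obtain ⟨p, hp⟩ : ∃ p, p = m.degree G 0 := ⟨_, rfl⟩
  obtain ⟨q, hq⟩ : ∃ q, q = m.degree G 1 := ⟨_, rfl⟩
  have hpq : p + q = e := by
    have h1 : (m.degree G).degree = G.totalDegree := MvPolynomial.degree_degLexDegree
    rw [hG, Finsupp.degree_eq_sum, Fin.sum_univ_two] at h1
    rw [hp, hq, h1]
  have hcard := card_TT p q D e hpq
  let σ : (TT p q D) ≃ Fin (Le e D) := (TT p q D).equivFinOfCardEq hcard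
  let x : Fin (Le e D) → Fin 2 → ℕ := fun a => ![(σ.symm a).1.2, (σ.symm a).1.1 - (σ.symm a).1.2]
  have hx0 : ∀ a, x a 0 = (σ.symm a).1.2 := fun a => rfl
  have hx1 : ∀ a, x a 1 = (σ.symm a).1.1 - (σ.symm a).1.2 := fun a => rfl
  have hmem : ∀ a, (σ.symm a).1.1 ≤ D ∧ (σ.symm a).1.2 ≤ (σ.symm a).1.1 ∧
      ¬ (p ≤ (σ.symm a).1.2 ∧ q ≤ (σ.symm a).1.1 - (σ.symm a).1.2) :=
    fun a => mem_TT.1 (σ.symm a).2
  have hsum : ∀ a, x a 0 + x a 1 = (σ.symm a).1.1 := by
    intro a
    have := hmem a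
    rw [hx0, hx1]
    omega
  have hinj : Function.Injective x := by
    intro a b hab
    apply σ.symm.injective
    apply Subtype.ext
    have h0 : x a 0 = x b 0 := by rw [hab]
    have h1 : x a 0 + x a 1 = x b 0 + x b 1 := by rw [hab]
    rw [hsum, hsum] at h1
    rw [hx0, hx0] at h0
    exact Sigma.ext h1 (heq_of_eq h0)
  refine ⟨x, hinj, ?_, ?_, ?_⟩
  · intro a
    rw [hsum]
    exact (hmem a).1
  · rw [Finset.sum_congr rfl fun a _ => hsum a]
    rw [Equiv.sum_comp σ.symm (fun t : TT p q D => t.1.1)]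
    rw [Finset.sum_coe_sort (TT p q D) (fun t => t.1)]
    exact sum_TT p q D e hpq
  · intro c hc hdvd
    have hF : ∑ a, MvPolynomial.C (c a) * (MvPolynomial.X 0 ^ (x a 0) * MvPolynomial.X 1 ^ (x a 1)) =
        ∑ a, MvPolynomial.monomial (Finsupp.equivFunOnFinite.symm (x a)) (c a) :=
      Finset.sum_congr rfl fun a _ => mon_eq (x a) (c a)
    rw [hF] at hdvd
    obtain ⟨F, hFd⟩ : ∃ F : MvPolynomial (Fin 2) ℚ,
      F = ∑ a, MvPolynomial.monomial (Finsupp.equivFunOnFinite.symm (x a)) (c a) := ⟨_, rfl⟩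
    rw [← hFd] at hdvd
    have hcoef : ∀ d, MvPolynomial.coeff d F =
        ∑ a, if Finsupp.equivFunOnFinite.symm (x a) = d then c a else 0 := by
      intro d
      rw [hFd, MvPolynomial.coeff_sum]
      exact Finset.sum_congr rfl fun a _ => MvPolynomial.coeff_monomial _ _ _
    -- `F` is not zero
    have hF0 : F ≠ 0 := by
      obtain ⟨a0, ha0⟩ := Function.ne_iff.1 hc
      intro h0
      have h1 := hcoef (Finsupp.equivFunOnFinite.symm (x a0))
      rw [h0, MvPolynomial.coeff_zero, Finset.sum_eq_single a0] at h1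
      · rw [if_pos rfl] at h1
        exact ha0 h1.symm
      · intro b _ hb
        rw [if_neg]
        intro h2
        exact hb (hinj (Finsupp.equivFunOnFinite.symm.injective h2))
      · intro h2
        exact absurd (Finset.mem_univ _) h2
    obtain ⟨Q, hQ⟩ := hdvd
    have hQ0 : Q ≠ 0 := by
      rintro rfl
      rw [mul_zero] at hQ
      exact hF0 hQ
    have hdeg : m.degree F = m.degree G + m.degree Q := by
      rw [hQ]
      exact m.degree_mul hG0 hQ0
    have hsup : m.degree F ∈ F.support := m.degree_mem_support hF0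
    rw [MvPolynomial.mem_support_iff, hcoef] at hsup
    obtain ⟨a, -, ha⟩ := Finset.exists_ne_zero_of_sum_ne_zero hsup
    have hxa : Finsupp.equivFunOnFinite.symm (x a) = m.degree F := by
      by_contra h
      exact ha (if_neg h)
    have e0 : x a 0 = m.degree G 0 + m.degree Q 0 := by
      have := DFunLike.congr_fun (hxa.trans hdeg) 0
      exact this
    have e1 : x a 1 = m.degree G 1 + m.degree Q 1 := by
      have := DFunLike.congr_fun (hxa.trans hdeg) 1
      exact this
    apply (hmem a).2.2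
    rw [← hx1, ← hx0, e0, e1, hp, hq]
    exact ⟨Nat.le_add_right _ _, Nat.le_add_right _ _⟩

end Pool.Agent.LPW.H19
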